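import Pool.Agent.Helper331_dgc.Shift

set_option autoImplicit false
set_option linter.deprecated false
set_option linter.unusedSectionVars false
set_option linter.unusedVariables false

/-!
Sharp polynomial lower bound for the height variance of the long-range discrete Gaussian chain
on `[-N, N]` with zero boundary condition, at every temperature and every `α ∈ (2,3)`.
-/

namespace Pool.Agent.Results.MP_57c4e5_pr.SharpLower

open Pool.Agent.Dgc
open scoped BigOperators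

lemma variance_ge {α β : ℝ} (hα : 2 < α) (hα3 : α < 3) (hβ : 0 < β) :
    ∃ c : ℝ, 0 < c ∧ ∀ N : ℕ, c * (N : ℝ) ^ (α - 2) * Z α β N ≤ V α β N := by
  set γ : ℝ := α - 2 with hγ
  have hγ0 : 0 < γ := by rw [hγ]; linarith
  have hγ1 : γ < 1 := by rw [hγ]; linarith
  have hC := C0_pos hα
  set M : ℝ := (4 * β * C0 α + 2 * (2 * β * C0 α * Real.exp (2 * β * C0 α))) / (1 - γ) with hM
  set Q : ℝ := Real.exp (M * 4 ^ γ) with hQ
  have hQ0 : 0 < Q := Real.exp_pos _
  refine ⟨1 / (4 * Q), by positivity, ?_⟩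
  intro N
  have hZ := Z_pos (α := α) (by linarith) hβ N
  have hV : 0 ≤ V α β N := tsum_nonneg (fun φ => mul_nonneg (sq_nonneg _) (w_pos _ _ _).le)
  rcases Nat.eq_zero_or_pos N with hN0 | hNpos
  · subst hN0
    rw [Nat.cast_zero, Real.zero_rpow hγ0.ne']
    simpa using hV
  have hN1 : (1 : ℝ) ≤ N := by exact_mod_cast hNpos
  have hNp : (0 : ℝ) < N := by linarith
  set t : ℝ := (N : ℝ) ^ (γ / 2) with ht
  have ht1 : 1 ≤ t := Real.one_le_rpow hN1 (by linarith)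
  have ht2 : t ^ 2 = (N : ℝ) ^ γ := by
    rw [ht, ← Real.rpow_natCast, ← Real.rpow_mul hNp.le]
    congr 1
    push_cast
    ring
  have ht3 : t ^ 2 ≤ N := by
    rw [ht2]
    calc (N : ℝ) ^ γ ≤ (N : ℝ) ^ (1 : ℝ) := Real.rpow_le_rpow_of_exponent_le hN1 hγ1.le
      _ = N := Real.rpow_one _
  set s : ℕ := ⌊t⌋₊ with hs
  have hs1 : 1 ≤ s := Nat.le_floor (by simpa using ht1)
  have hst : (s : ℝ) ≤ t := Nat.floor_le (by linarith)
  have hts : t ≤ 2 * s := by
    have h1 := Nat.lt_floor_add_one t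
    have h2 : (1 : ℝ) ≤ s := by exact_mod_cast hs1
    rw [← hs] at h1
    linarith
  have h2s : 2 * s ≤ N + 1 := by
    have : ((2 * s : ℕ) : ℝ) ≤ ((N + 1 : ℕ) : ℝ) := by
      push_cast
      nlinarith [sq_nonneg (t - 1)]
    exact_mod_cast this
  set l : ℕ := (N + 1) / (2 * s) with hl
  have hl1 : 1 ≤ l := by
    rw [hl, Nat.one_le_div_iff (by omega)]
    exact h2s
  have hle : 2 * s * l ≤ N + 1 := Nat.mul_div_le _ _
  have hlow : N + 1 ≤ 4 * s * l := by
    have h1 := Nat.lt_mul_div_succ (N + 1) (b := 2 * s) (by omega)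
    rw [← hl] at h1
    nlinarith
  have hspos : (0 : ℝ) < s := by exact_mod_cast hs1
  have hlpos : (0 : ℝ) < l := by exact_mod_cast hl1
  have hX : (s : ℝ) ^ (2 - (α - 2)) * (l : ℝ) ^ (-(α - 2)) ≤ 4 ^ γ := by
    rw [← hγ]
    have h1 : (N : ℝ) ≤ 4 * ((s : ℝ) * l) := by
      have : ((N + 1 : ℕ) : ℝ) ≤ ((4 * s * l : ℕ) : ℝ) := by exact_mod_cast hlow
      push_cast at this
      linarith
    have h2 : (N : ℝ) ^ γ ≤ 4 ^ γ * ((s : ℝ) * l) ^ γ := by
      rw [← Real.mul_rpow (by norm_num) (by positivity)]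
      exact Real.rpow_le_rpow hNp.le h1 hγ0.le
    have h3 : (s : ℝ) ^ (2 - γ) * (l : ℝ) ^ (-γ) = (s : ℝ) ^ 2 / ((s : ℝ) * l) ^ γ := by
      rw [Real.mul_rpow hspos.le hlpos.le, Real.rpow_neg hlpos.le, Real.rpow_sub hspos,
        Real.rpow_two]
      have := (Real.rpow_pos_of_pos hspos γ).ne'
      have := (Real.rpow_pos_of_pos hlpos γ).ne'
      field_simp
    rw [h3, div_le_iff₀ (by positivity)]
    calc (s : ℝ) ^ 2 ≤ t ^ 2 := by
          apply pow_le_pow_left₀ hspos.le hst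
      _ = (N : ℝ) ^ γ := ht2
      _ ≤ _ := h2
  have hQb := Q_bound hα hα3 hβ hs1 hl1 hle (4 ^ γ) hX
  rw [← hγ, ← hM, ← hQ] at hQb
  haveI : Nonempty (Fin l) := ⟨⟨0, by omega⟩⟩
  have hCR := chapman_robbins (α := α) (β := β) (by linarith) hβ (N := N)
    (fun u : Fin s → Fin l => (⟨prof u, prof_mem hle u⟩ : A N)) (s : ℝ)
    (fun u => by
      have := prof_zero u
      simp only [this]
      push_cast
      rfl) Q hQb
  have h4 : (N : ℝ) ^ γ ≤ 4 * (s : ℝ) ^ 2 := by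
    rw [← ht2]
    nlinarith
  have h5 : 1 / (4 * Q) * (N : ℝ) ^ γ * Z α β N ≤ (1 / Q) * ((s : ℝ) ^ 2 * Z α β N) := by
    have h6 : 1 / (4 * Q) * (N : ℝ) ^ γ ≤ 1 / (4 * Q) * (4 * (s : ℝ) ^ 2) :=
      mul_le_mul_of_nonneg_left h4 (by positivity)
    have h7 := mul_le_mul_of_nonneg_right h6 hZ.le
    refine h7.trans (le_of_eq ?_)
    field_simp
  refine h5.trans ?_
  rw [one_div, inv_mul_le_iff₀ hQ0]
  exact hCR

/-- For every `α ∈ (2,3)` and every `β > 0` there is `c > 0` such that, for every `N`, the second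
moment (equal to the variance, the mean being zero) of the height at the origin of the
integer-valued chain on `[-N, N]` with zero boundary condition is at least `c * N^(α-2)`. -/
theorem result :
    ∀ α : ℝ, 2 < α → α < 3 → ∀ β : ℝ, 0 < β → ∃ c : ℝ, 0 < c ∧ ∀ N : ℕ,
      c * (N : ℝ) ^ (α - 2) ≤
          (∑' φ : {φ : ℤ → ℤ // ∀ x : ℤ, (N : ℤ) < |x| → φ x = 0},
              ((φ.1 0 : ℝ)) ^ 2 *
                Real.exp (-β * ∑' p : ℤ × ℤ,
                  (if p.1 = p.2 then (0 : ℝ)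
                   else ((|p.1 - p.2| : ℤ) : ℝ) ^ (-α) *
                     ((φ.1 p.1 : ℝ) - (φ.1 p.2 : ℝ)) ^ 2))) /
          (∑' φ : {φ : ℤ → ℤ // ∀ x : ℤ, (N : ℤ) < |x| → φ x = 0},
              Real.exp (-β * ∑' p : ℤ × ℤ,
                (if p.1 = p.2 then (0 : ℝ)
                 else ((|p.1 - p.2| : ℤ) : ℝ) ^ (-α) *
                   ((φ.1 p.1 : ℝ) - (φ.1 p.2 : ℝ)) ^ 2))) := by
  intro α hα hα3 β hβ
  obtain ⟨c, hc, h⟩ := variance_ge hα hα3 hβ
  refine ⟨c, hc, fun N => ?_⟩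
  have hZ := Z_pos (α := α) (by linarith) hβ N
  have h1 := h N
  have h2 : c * (N : ℝ) ^ (α - 2) ≤ V α β N / Z α β N := by
    rw [le_div_iff₀ hZ]; exact h1
  have eZ : Z α β N = (∑' φ : {φ : ℤ → ℤ // ∀ x : ℤ, (N : ℤ) < |x| → φ x = 0},
              Real.exp (-β * ∑' p : ℤ × ℤ,
                (if p.1 = p.2 then (0 : ℝ)
                 else ((|p.1 - p.2| : ℤ) : ℝ) ^ (-α) *
                   ((φ.1 p.1 : ℝ) - (φ.1 p.2 : ℝ)) ^ 2))) := by
    unfold Z w
    simp_rw [H_eq]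
    rfl
  have eV : V α β N = (∑' φ : {φ : ℤ → ℤ // ∀ x : ℤ, (N : ℤ) < |x| → φ x = 0},
              ((φ.1 0 : ℝ)) ^ 2 *
                Real.exp (-β * ∑' p : ℤ × ℤ,
                  (if p.1 = p.2 then (0 : ℝ)
                   else ((|p.1 - p.2| : ℤ) : ℝ) ^ (-α) *
                     ((φ.1 p.1 : ℝ) - (φ.1 p.2 : ℝ)) ^ 2))) := by
    unfold V w
    simp_rw [H_eq]
    rfl
  rw [← eZ, ← eV]
  exact h2

end Pool.Agent.Results.MP_57c4e5_pr.SharpLower
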